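import Pool.Agent.V113.SRI.Defs

/-! Basic facts on terms. -/

set_option autoImplicit false

namespace Pool.Agent.V113.SRI

universe u

namespace Tm

variable {X Y : Type}

/-- Substitution. -/
def subst (φ : X → Tm Y) : Tm X → Tm Y
  | var x => φ x
  | add s t => add (subst φ s) (subst φ t)
  | mul s t => mul (subst φ s) (subst φ t)

theorem eval_subst {A : Type u} [Add A] [Mul A] (ρ : Y → A) (φ : X → Tm Y) (t : Tm X) :
    (t.subst φ).eval ρ = t.eval (fun x => (φ x).eval ρ) := by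
  induction t with
  | var x => rfl
  | add s t hs ht => simp only [subst, eval, hs, ht]
  | mul s t hs ht => simp only [subst, eval, hs, ht]

theorem occ_subst (φ : X → Tm Y) (y : Y) (t : Tm X) :
    (t.subst φ).occ y ↔ ∃ x, t.occ x ∧ (φ x).occ y := by
  induction t with
  | var x => simp [subst, occ]
  | add s t hs ht =>
    simp only [subst, occ, hs, ht]
    constructor
    · rintro (⟨x, h1, h2⟩ | ⟨x, h1, h2⟩)
      · exact ⟨x, Or.inl h1, h2⟩
      · exact ⟨x, Or.inr h1, h2⟩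
    · rintro ⟨x, h1 | h1, h2⟩
      · exact Or.inl ⟨x, h1, h2⟩
      · exact Or.inr ⟨x, h1, h2⟩
  | mul s t hs ht =>
    simp only [subst, occ, hs, ht]
    constructor
    · rintro (⟨x, h1, h2⟩ | ⟨x, h1, h2⟩)
      · exact ⟨x, Or.inl h1, h2⟩
      · exact ⟨x, Or.inr h1, h2⟩
    · rintro ⟨x, h1 | h1, h2⟩
      · exact Or.inl ⟨x, h1, h2⟩
      · exact Or.inr ⟨x, h1, h2⟩

theorem eval_congr {A : Type u} [Add A] [Mul A] {ρ ρ' : X → A} {t : Tm X}
    (h : ∀ x, t.occ x → ρ x = ρ' x) : t.eval ρ = t.eval ρ' := by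
  induction t with
  | var x => exact h x rfl
  | add s t hs ht =>
    simp only [eval]
    rw [hs fun x hx => h x (Or.inl hx), ht fun x hx => h x (Or.inr hx)]
  | mul s t hs ht =>
    simp only [eval]
    rw [hs fun x hx => h x (Or.inl hx), ht fun x hx => h x (Or.inr hx)]

theorem exists_occ (t : Tm X) : ∃ x, t.occ x := by
  induction t with
  | var x => exact ⟨x, rfl⟩
  | add s t hs ht => obtain ⟨x, hx⟩ := hs; exact ⟨x, Or.inl hx⟩
  | mul s t hs ht => obtain ⟨x, hx⟩ := hs; exact ⟨x, Or.inl hx⟩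

/-- Values in a subset closed under the operations. -/
theorem eval_mem {A : Type u} [Add A] [Mul A] (B : Set A)
    (hadd : ∀ a ∈ B, ∀ b ∈ B, a + b ∈ B) (hmul : ∀ a ∈ B, ∀ b ∈ B, a * b ∈ B)
    {ρ : X → A} {t : Tm X} (h : ∀ x, t.occ x → ρ x ∈ B) : t.eval ρ ∈ B := by
  induction t with
  | var x => exact h x rfl
  | add s t hs ht =>
    exact hadd _ (hs fun x hx => h x (Or.inl hx)) _ (ht fun x hx => h x (Or.inr hx))
  | mul s t hs ht =>
    exact hmul _ (hs fun x hx => h x (Or.inl hx)) _ (ht fun x hx => h x (Or.inr hx))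

/-- The list of variables. -/
def vl : Tm X → List X
  | var x => [x]
  | add s t => vl s ++ vl t
  | mul s t => vl s ++ vl t

theorem mem_vl (x : X) (t : Tm X) : x ∈ t.vl ↔ t.occ x := by
  induction t with
  | var y => simp [vl, occ]
  | add s t hs ht => simp [vl, occ, hs, ht]
  | mul s t hs ht => simp [vl, occ, hs, ht]

/-- The difference term. -/
theorem exists_dif (y z : X) (t : Tm X) (h : t.occ y) :
    ∃ m : Tm X, m.occ z ∧ ∀ (A : Type u) [Add A] [Mul A], IsSR A → ∀ ρ ρ' : X → A,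
      ρ' y = ρ y + ρ z → (∀ x, x ≠ y → ρ' x = ρ x) → t.eval ρ' = t.eval ρ + m.eval ρ := by
  classical
  induction t with
  | var x =>
    obtain rfl : y = x := h
    exact ⟨var z, rfl, fun A _ _ _ ρ ρ' h1 _ => h1⟩
  | add s t hs ht =>
    by_cases h1 : s.occ y <;> by_cases h2 : t.occ y
    · obtain ⟨m1, hm1, e1⟩ := hs h1
      obtain ⟨m2, hm2, e2⟩ := ht h2
      refine ⟨m1.add m2, Or.inl hm1, fun A _ _ hA ρ ρ' h3 h4 => ?_⟩
      simp only [eval]
      rw [e1 A hA ρ ρ' h3 h4, e2 A hA ρ ρ' h3 h4]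
      generalize s.eval ρ = a, m1.eval ρ = b, t.eval ρ = c, m2.eval ρ = d
      rw [hA.add_assoc, ← hA.add_assoc b, hA.add_comm b c, hA.add_assoc c, ← hA.add_assoc a]
    · obtain ⟨m1, hm1, e1⟩ := hs h1
      refine ⟨m1, hm1, fun A _ _ hA ρ ρ' h3 h4 => ?_⟩
      simp only [eval]
      rw [e1 A hA ρ ρ' h3 h4, eval_congr (ρ := ρ') (ρ' := ρ) (t := t) fun x hx => h4 x fun hxy =>
        h2 (hxy ▸ hx)]
      rw [hA.add_assoc, hA.add_comm (m1.eval ρ), ← hA.add_assoc]
    · obtain ⟨m2, hm2, e2⟩ := ht h2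
      refine ⟨m2, hm2, fun A _ _ hA ρ ρ' h3 h4 => ?_⟩
      simp only [eval]
      rw [e2 A hA ρ ρ' h3 h4, eval_congr (ρ := ρ') (ρ' := ρ) (t := s) fun x hx => h4 x fun hxy =>
        h1 (hxy ▸ hx)]
      rw [hA.add_assoc]
    · exact absurd h (by rintro (h | h); exacts [h1 h, h2 h])
  | mul s t hs ht =>
    by_cases h1 : s.occ y <;> by_cases h2 : t.occ y
    · obtain ⟨m1, hm1, e1⟩ := hs h1
      obtain ⟨m2, hm2, e2⟩ := ht h2
      refine ⟨((s.mul m2).add (m1.mul t)).add (m1.mul m2), Or.inl (Or.inr (Or.inl hm1)),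
        fun A _ _ hA ρ ρ' h3 h4 => ?_⟩
      simp only [eval]
      rw [e1 A hA ρ ρ' h3 h4, e2 A hA ρ ρ' h3 h4]
      generalize s.eval ρ = a, m1.eval ρ = b, t.eval ρ = c, m2.eval ρ = d
      rw [hA.left_distrib, hA.right_distrib, hA.right_distrib, hA.add_assoc,
        ← hA.add_assoc (b * c), hA.add_comm (b * c)]
    · obtain ⟨m1, hm1, e1⟩ := hs h1
      refine ⟨m1.mul t, Or.inl hm1, fun A _ _ hA ρ ρ' h3 h4 => ?_⟩
      simp only [eval]
      rw [e1 A hA ρ ρ' h3 h4, eval_congr (ρ := ρ') (ρ' := ρ) (t := t) fun x hx => h4 x fun hxy =>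
        h2 (hxy ▸ hx)]
      rw [hA.right_distrib]
    · obtain ⟨m2, hm2, e2⟩ := ht h2
      refine ⟨s.mul m2, Or.inr hm2, fun A _ _ hA ρ ρ' h3 h4 => ?_⟩
      simp only [eval]
      rw [e2 A hA ρ ρ' h3 h4, eval_congr (ρ := ρ') (ρ' := ρ) (t := s) fun x hx => h4 x fun hxy =>
        h1 (hxy ▸ hx)]
      rw [hA.left_distrib]
    · exact absurd h (by rintro (h | h); exacts [h1 h, h2 h])

end Tm

open Tm

/-- The two sides of an identity have the same variables. -/
def Rg {X : Type} (e : Tm X × Tm X) : Prop := ∀ x, e.1.occ x ↔ e.2.occ x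

/-- Values of the garbage term. -/
noncomputable def mu {A : Type u} [Add A] [Mul A] (m : Tm (Option ℕ)) (w : Tm ℕ) (x : ℕ → A)
    (p : A) : A :=
  m.eval (fun o => match o with
    | none => p
    | some n => @ite _ (w.occ n) (Classical.propDecidable _) (x n) p)

/-- The garbage term. -/
noncomputable def Mw {Y : Type} (m : Tm (Option ℕ)) (w : Tm ℕ) (φ : ℕ → Tm Y)
    (p : Tm Y) : Tm Y :=
  m.subst (fun o => match o with
    | none => p
    | some n => @ite _ (w.occ n) (Classical.propDecidable _) (φ n) p)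

theorem eval_Mw {Y : Type} {A : Type u} [Add A] [Mul A] (m : Tm (Option ℕ)) (w : Tm ℕ)
    (φ : ℕ → Tm Y) (p : Tm Y) (ρ : Y → A) :
    (Mw m w φ p).eval ρ = mu m w (fun n => (φ n).eval ρ) (p.eval ρ) := by
  rw [Mw, eval_subst, mu]
  congr 1
  funext o
  rcases o with _ | n
  · rfl
  · by_cases h : w.occ n
    · simp [h]
    · simp [h]

theorem occ_Mw_of {Y : Type} {m : Tm (Option ℕ)} (hm : m.occ none) (w : Tm ℕ)
    (φ : ℕ → Tm Y) (p : Tm Y) (y : Y) (h : p.occ y) : (Mw m w φ p).occ y := by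
  rw [Mw, occ_subst]
  exact ⟨none, hm, h⟩

theorem of_occ_Mw {Y : Type} {m : Tm (Option ℕ)} (w : Tm ℕ)
    (φ : ℕ → Tm Y) (p : Tm Y) (y : Y) (h : (Mw m w φ p).occ y) :
    p.occ y ∨ (w.subst φ).occ y := by
  rw [Mw, occ_subst] at h
  obtain ⟨o, _, h2⟩ := h
  rcases o with _ | n
  · exact Or.inl h2
  · by_cases hn : w.occ n
    · right
      rw [occ_subst]
      exact ⟨n, hn, by simpa [hn] using h2⟩
    · left
      simpa [hn] using h2

/-- The garbage term of an irregular identity. -/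
theorem exists_m {S : Type u} [Add S] [Mul S] (hS : IsSR S) (e : Tm ℕ × Tm ℕ) (he : Sat S e)
    (hirr : ¬ Rg e) : ∃ m : Tm (Option ℕ), m.occ none ∧ ∀ w, (w = e.1 ∨ w = e.2) →
      ∀ (x : ℕ → S) (p : S), w.eval x + mu m w x p = w.eval x := by
  classical
  have key : ∀ u v : Tm ℕ, (∀ ρ : ℕ → S, u.eval ρ = v.eval ρ) → (∃ y, v.occ y ∧ ¬ u.occ y) →
      ∃ m : Tm (Option ℕ), m.occ none ∧ ∀ ρ : Option ℕ → S,
        u.eval (fun n => ρ (some n)) + m.eval ρ = u.eval (fun n => ρ (some n)) := by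
    rintro u v huv ⟨y, hy, hyu⟩
    have h1 : (v.subst (fun n => var (some n))).occ (some y) := by
      rw [occ_subst]; exact ⟨y, hy, rfl⟩
    obtain ⟨m, hm, hme⟩ := exists_dif.{u} (some y) none _ h1
    refine ⟨m, hm, fun ρ => ?_⟩
    have h2 := hme S hS ρ (Function.update ρ (some y) (ρ (some y) + ρ none))
      (by simp) (fun x hx => by simp [hx])
    rw [eval_subst, eval_subst] at h2
    simp only [eval] at h2
    rw [← huv, ← huv] at h2
    rw [← h2]
    apply eval_congr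
    intro x hx
    have : x ≠ y := fun h => hyu (h ▸ hx)
    simp [this]
  obtain ⟨u, v, huv, hex, hsides⟩ : ∃ u v : Tm ℕ, (∀ ρ : ℕ → S, u.eval ρ = v.eval ρ) ∧
      (∃ y, v.occ y ∧ ¬ u.occ y) ∧ (∀ w, (w = e.1 ∨ w = e.2) → w = u ∨ w = v) := by
    rw [Rg] at hirr
    push Not at hirr
    obtain ⟨y, hy⟩ := hirr
    rcases hy with ⟨h1, h2⟩ | ⟨h1, h2⟩
    · exact ⟨e.2, e.1, fun ρ => (he ρ).symm, ⟨y, h1, h2⟩, fun w hw => hw.symm⟩
    · exact ⟨e.1, e.2, he, ⟨y, h2, h1⟩, fun w hw => hw⟩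
  obtain ⟨m, hm, hme⟩ := key u v huv hex
  refine ⟨m, hm, fun w hw x p => ?_⟩
  have h3 : ∀ ρ : Option ℕ → S, w.eval (fun n => ρ (some n)) + m.eval ρ =
      w.eval (fun n => ρ (some n)) := by
    intro ρ
    rcases hsides w hw with rfl | rfl
    · exact hme ρ
    · rw [← huv]; exact hme ρ
  have h4 := h3 (fun o => match o with
    | none => p
    | some n => @ite _ (w.occ n) (Classical.propDecidable _) (x n) p)
  have h5 : w.eval (fun n => @ite _ (w.occ n) (Classical.propDecidable _) (x n) p) =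
      w.eval x := by
    apply eval_congr
    intro n hn
    simp [hn]
  simp only at h4
  rw [h5] at h4
  exact h4

end Pool.Agent.V113.SRI
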