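import Mathlib

/-! Terms, identities and finitely based semirings. -/

set_option autoImplicit false

namespace Pool.Agent.V113.SRI

universe u

/-- Terms in the signature `(+, ·)` over variables `X`. -/
inductive Tm (X : Type) : Type
  | var : X → Tm X
  | add : Tm X → Tm X → Tm X
  | mul : Tm X → Tm X → Tm X

namespace Tm

/-- Evaluation of a term. -/
def eval {X : Type} {A : Type u} [Add A] [Mul A] (ρ : X → A) : Tm X → A
  | var x => ρ x
  | add s t => eval ρ s + eval ρ t
  | mul s t => eval ρ s * eval ρ t

/-- The variable `x` occurs in the term. -/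
def occ {X : Type} (x : X) : Tm X → Prop
  | var y => x = y
  | add s t => occ x s ∨ occ x t
  | mul s t => occ x s ∨ occ x t

end Tm

/-- The semiring axioms of the problem: `(S, +)` is a commutative semigroup, `(S, ·)` is a
semigroup, and both distributive laws hold. -/
structure IsSR (S : Type u) [Add S] [Mul S] : Prop where
  add_comm : ∀ a b : S, a + b = b + a
  add_assoc : ∀ a b c : S, a + b + c = a + (b + c)
  mul_assoc : ∀ a b c : S, a * b * c = a * (b * c)
  left_distrib : ∀ a b c : S, a * (b + c) = a * b + a * c
  right_distrib : ∀ a b c : S, (a + b) * c = a * c + b * c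

/-- The identity `e.1 ≈ e.2` holds in `A`. -/
def Sat (A : Type u) [Add A] [Mul A] (e : Tm ℕ × Tm ℕ) : Prop :=
  ∀ ρ : ℕ → A, e.1.eval ρ = e.2.eval ρ

/-- `A` belongs to the variety generated by `S` (it satisfies all identities of `S`). -/
def InVar (S A : Type u) [Add S] [Mul S] [Add A] [Mul A] : Prop :=
  ∀ e : Tm ℕ × Tm ℕ, Sat S e → Sat A e

/-- `S` is finitely based: the variety generated by `S` is defined by a finite set of
identities. -/
def FinitelyBased (S : Type u) [Add S] [Mul S] : Prop :=
  ∃ E : Set (Tm ℕ × Tm ℕ), E.Finite ∧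
    ∀ (A : Type u) [Add A] [Mul A], InVar S A ↔ ∀ e ∈ E, Sat A e

/-- `S^∞ = S ∪ {∞}`. -/
inductive Ext (S : Type u) : Type u
  | elt : S → Ext S
  | infty : Ext S

instance {S : Type u} [Add S] : Add (Ext S) where
  add
    | .elt a, .elt b => .elt (a + b)
    | _, _ => .infty

instance {S : Type u} [Mul S] : Mul (Ext S) where
  mul
    | .elt a, .elt b => .elt (a * b)
    | _, _ => .infty

end Pool.Agent.V113.SRI
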