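import Pool.Agent.V113.SRI.Basic

/-! The finite family of regular identities. -/

set_option autoImplicit false

namespace Pool.Agent.V113.SRI

universe u

open Tm

/-- The variables used in the families. -/
abbrev Yv : Type := ℕ ⊕ (ℕ ⊕ Fin 9)

/-- first copy -/
def xw (n : ℕ) : Tm Yv := var (Sum.inl n)
/-- second copy -/
def xu (n : ℕ) : Tm Yv := var (Sum.inr (Sum.inl n))
/-- further variables -/
def fr (k : Fin 9) : Tm Yv := var (Sum.inr (Sum.inr k))

section ctx

variable {X : Type} {A : Type u} [Add A] [Mul A]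

/-- A multiplicative context. -/
def cx (l r : Bool) (a b t : Tm X) : Tm X :=
  match l, r with
  | false, false => t
  | true, false => a.mul t
  | false, true => t.mul b
  | true, true => (a.mul t).mul b

/-- A multiplicative context. -/
def cxe (l r : Bool) (a b t : A) : A :=
  match l, r with
  | false, false => t
  | true, false => a * t
  | false, true => t * b
  | true, true => (a * t) * b

/-- An additive context. -/
def ad (o : Bool) (R t : Tm X) : Tm X :=
  match o with
  | false => t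
  | true => t.add R

/-- An additive context. -/
def ade (o : Bool) (R t : A) : A :=
  match o with
  | false => t
  | true => t + R

theorem eval_cx (ρ : X → A) (l r : Bool) (a b t : Tm X) :
    (cx l r a b t).eval ρ = cxe l r (a.eval ρ) (b.eval ρ) (t.eval ρ) := by
  cases l <;> cases r <;> rfl

theorem eval_ad (ρ : X → A) (o : Bool) (R t : Tm X) :
    (ad o R t).eval ρ = ade o (R.eval ρ) (t.eval ρ) := by
  cases o <;> rfl

theorem occ_cx (l r : Bool) (a b t : Tm X) (y : X) :
    (cx l r a b t).occ y ↔ (l = true ∧ a.occ y) ∨ t.occ y ∨ (r = true ∧ b.occ y) := by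
  cases l <;> cases r <;> simp [cx, occ, or_assoc]

theorem occ_ad (o : Bool) (R t : Tm X) (y : X) :
    (ad o R t).occ y ↔ t.occ y ∨ (o = true ∧ R.occ y) := by
  cases o <;> simp [ad, occ]

theorem cxe_add (hA : IsSR A) (l r : Bool) (a b s t : A) :
    cxe l r a b (s + t) = cxe l r a b s + cxe l r a b t := by
  cases l <;> cases r <;> simp [cxe, hA.left_distrib, hA.right_distrib]

theorem ade_add (hA : IsSR A) (o : Bool) (R s t : A) :
    ade o R (s + t) = ade o R s + t := by
  cases o
  · rfl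
  · simp only [ade]
    rw [hA.add_assoc, hA.add_comm t, ← hA.add_assoc]

theorem occ_foldl (P : Tm X) (L : List (Tm X)) (y : X) :
    (L.foldl add P).occ y ↔ P.occ y ∨ ∃ t ∈ L, t.occ y := by
  induction L generalizing P with
  | nil => simp
  | cons a L ih =>
    rw [List.foldl_cons, ih]
    simp only [occ, List.mem_cons, exists_eq_or_imp]
    tauto

theorem eval_foldl (ρ : X → A) (P : Tm X) (L : List (Tm X)) :
    (L.foldl add P).eval ρ = (L.map (eval ρ)).foldl (· + ·) (P.eval ρ) := by
  induction L generalizing P with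
  | nil => rfl
  | cons a L ih =>
    rw [List.foldl_cons, ih, List.map_cons, List.foldl_cons]
    rfl

omit [Mul A] in
theorem foldl_absorb (P : A) (L : List A) (h : ∀ t ∈ L, P + t = P) : L.foldl (· + ·) P = P := by
  induction L with
  | nil => rfl
  | cons a L ih =>
    rw [List.foldl_cons, h a (by simp)]
    exact ih fun t ht => h t (by simp [ht])

end ctx

/-- J1 -/
noncomputable def J1 (m : Tm (Option ℕ)) (w : Tm ℕ) (l r o : Bool) : Tm Yv × Tm Yv :=
  (ad o (fr 2) (cx l r (fr 0) (fr 1) (w.subst xw)),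
    (ad o (fr 2) (cx l r (fr 0) (fr 1) (w.subst xw))).add
      (cx l r (fr 0) (fr 1) (Mw m w xw (ad o (fr 2) (cx l r (fr 0) (fr 1) (w.subst xw))))))

/-- J3 -/
noncomputable def J3 (m : Tm (Option ℕ)) (w : Tm ℕ) : Tm Yv × Tm Yv :=
  (((fr 3).mul (w.subst xw)).mul (fr 3),
    (((fr 3).mul (w.subst xw)).mul (fr 3)).add (((fr 3).mul (Mw m w xw (fr 3))).mul (fr 3)))

/-- sum or product of the two variables -/
def pp (c : Bool) : Tm Yv := if c then (fr 5).add (fr 6) else (fr 5).mul (fr 6)

/-- one of the two variables -/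
def pd (d : Bool) : Tm Yv := if d then (fr 5) else (fr 6)

/-- J4 -/
noncomputable def J4 (m : Tm (Option ℕ)) (w : Tm ℕ) (c d : Bool) : Tm Yv × Tm Yv :=
  ((w.subst xw).add (Mw m w xw (pp c)),
    ((w.subst xw).add (Mw m w xw (pp c))).add (Mw m w xw (pd d)))

/-- J5 -/
noncomputable def J5 (m : Tm (Option ℕ)) (w : Tm ℕ) (c : Bool) : Tm Yv × Tm Yv :=
  (((w.subst xw).add (Mw m w xw (fr 5))).add (Mw m w xw (fr 6)),
    (((w.subst xw).add (Mw m w xw (fr 5))).add (Mw m w xw (fr 6))).add (Mw m w xw (pp c)))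

/-- The big block -/
noncomputable def bigP (m : Tm (Option ℕ)) (w : Tm ℕ) (e : Tm ℕ × Tm ℕ) : Tm Yv :=
  ((e.1.vl ++ e.2.vl).map
    (fun n => ((fr 3).mul (Mw m w xw (xu n))).mul (fr 3))).foldl add (fr 4)

/-- J6 -/
noncomputable def J6 (m : Tm (Option ℕ)) (w : Tm ℕ) (e : Tm ℕ × Tm ℕ) (l r l' r' : Bool) :
    Tm Yv × Tm Yv :=
  ((cx l' r' (fr 7) (fr 8) (e.1.subst xu)).add (cx l r (fr 0) (fr 1) (Mw m w xw (bigP m w e))),
    (cx l' r' (fr 7) (fr 8) (e.2.subst xu)).add (cx l r (fr 0) (fr 1) (Mw m w xw (bigP m w e))))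

section Rg

variable {m : Tm (Option ℕ)} (hm : m.occ none) (w : Tm ℕ)

include hm

omit hm in
theorem rg_J1 (l r o : Bool) : Rg (J1 m w l r o) := by
  intro y
  constructor
  · intro h; exact Or.inl h
  · rintro (h | h)
    · exact h
    · rw [occ_cx] at h
      simp only [J1]
      rcases h with h | h | h
      · rw [occ_ad, occ_cx]; exact Or.inl (Or.inl h)
      · rcases of_occ_Mw w _ _ _ h with h | h
        · exact h
        · rw [occ_ad, occ_cx]; exact Or.inl (Or.inr (Or.inl h))
      · rw [occ_ad, occ_cx]; exact Or.inl (Or.inr (Or.inr h))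

omit hm in
theorem rg_J3 : Rg (J3 m w) := by
  intro y
  constructor
  · intro h; exact Or.inl h
  · rintro (h | h)
    · exact h
    · rcases h with (h | h) | h
      · exact Or.inl (Or.inl h)
      · rcases of_occ_Mw w _ _ _ h with h | h
        · exact Or.inr h
        · exact Or.inl (Or.inr h)
      · exact Or.inr h

theorem rg_J4 (c d : Bool) : Rg (J4 m w c d) := by
  intro y
  constructor
  · intro h; exact Or.inl h
  · rintro (h | h)
    · exact h
    · rcases of_occ_Mw w _ _ _ h with h | h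
      · refine Or.inr (occ_Mw_of hm w _ _ _ ?_)
        cases c <;> cases d
        · exact Or.inr h
        · exact Or.inl h
        · exact Or.inr h
        · exact Or.inl h
      · exact Or.inl h

theorem rg_J5 (c : Bool) : Rg (J5 m w c) := by
  intro y
  constructor
  · intro h; exact Or.inl h
  · rintro (h | h)
    · exact h
    · rcases of_occ_Mw w _ _ _ h with h | h
      · cases c
        · rcases h with h | h
          · exact Or.inl (Or.inr (occ_Mw_of hm w _ _ _ h))
          · exact Or.inr (occ_Mw_of hm w _ _ _ h)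
        · rcases h with h | h
          · exact Or.inl (Or.inr (occ_Mw_of hm w _ _ _ h))
          · exact Or.inr (occ_Mw_of hm w _ _ _ h)
      · exact Or.inl (Or.inl h)

theorem occ_big (e : Tm ℕ × Tm ℕ) (y : Yv)
    (h : (e.1.subst xu).occ y ∨ (e.2.subst xu).occ y) : (bigP m w e).occ y := by
  rw [bigP, occ_foldl]
  right
  have : ∃ n, n ∈ e.1.vl ++ e.2.vl ∧ (xu n).occ y := by
    rcases h with h | h
    · obtain ⟨n, h1, h2⟩ := (occ_subst _ _ _).1 h
      exact ⟨n, List.mem_append.2 (Or.inl ((mem_vl _ _).2 h1)), h2⟩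
    · obtain ⟨n, h1, h2⟩ := (occ_subst _ _ _).1 h
      exact ⟨n, List.mem_append.2 (Or.inr ((mem_vl _ _).2 h1)), h2⟩
  obtain ⟨n, h1, h2⟩ := this
  exact ⟨_, List.mem_map.2 ⟨n, h1, rfl⟩, Or.inl (Or.inr (occ_Mw_of hm w _ _ _ h2))⟩

theorem rg_J6 (e : Tm ℕ × Tm ℕ) (l r l' r' : Bool) : Rg (J6 m w e l r l' r') := by
  have key : ∀ y, ((e.1.subst xu).occ y ∨ (e.2.subst xu).occ y) →
      (cx l r (fr 0) (fr 1) (Mw m w xw (bigP m w e))).occ y := by
    intro y h
    rw [occ_cx]
    exact Or.inr (Or.inl (occ_Mw_of hm w _ _ _ (occ_big hm w e y h)))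
  intro y
  constructor
  · rintro (h | h)
    · rw [occ_cx] at h
      rcases h with h | h | h
      · exact Or.inl (by rw [occ_cx]; exact Or.inl h)
      · exact Or.inr (key y (Or.inl h))
      · exact Or.inl (by rw [occ_cx]; exact Or.inr (Or.inr h))
    · exact Or.inr h
  · rintro (h | h)
    · rw [occ_cx] at h
      rcases h with h | h | h
      · exact Or.inl (by rw [occ_cx]; exact Or.inl h)
      · exact Or.inr (key y (Or.inr h))
      · exact Or.inl (by rw [occ_cx]; exact Or.inr (Or.inr h))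
    · exact Or.inr h

end Rg

section Valid

variable {S : Type u} [Add S] [Mul S] (m : Tm (Option ℕ)) (w : Tm ℕ)
  (hw : ∀ (x : ℕ → S) (p : S), w.eval x + mu m w x p = w.eval x)

include hw

theorem val_J1 (hS : IsSR S) (l r o : Bool) (ρ : Yv → S) :
    (J1 m w l r o).1.eval ρ = (J1 m w l r o).2.eval ρ := by
  simp only [J1, eval]
  rw [eval_ad, eval_cx, eval_cx, eval_Mw, eval_ad, eval_cx, eval_subst]
  set p := ade o ((fr 2).eval ρ) (cxe l r ((fr 0).eval ρ) ((fr 1).eval ρ)
    (w.eval fun x => (xw x).eval ρ)) with hp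
  conv_lhs => rw [hp, ← hw (fun x => (xw x).eval ρ) p, cxe_add hS, ade_add hS]

theorem val_J3 (hS : IsSR S) (ρ : Yv → S) :
    (J3 m w).1.eval ρ = (J3 m w).2.eval ρ := by
  simp only [J3, eval]
  rw [eval_Mw, eval_subst]
  conv_lhs => rw [← hw (fun x => (xw x).eval ρ) ((fr 3).eval ρ), hS.left_distrib,
    hS.right_distrib]

theorem val_J4 (c d : Bool) (ρ : Yv → S) :
    (J4 m w c d).1.eval ρ = (J4 m w c d).2.eval ρ := by
  simp only [J4, eval]
  rw [eval_Mw, eval_Mw, eval_subst, hw, hw]

theorem val_J5 (c : Bool) (ρ : Yv → S) :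
    (J5 m w c).1.eval ρ = (J5 m w c).2.eval ρ := by
  simp only [J5, eval]
  rw [eval_Mw, eval_Mw, eval_Mw, eval_subst, hw, hw, hw]

omit hw in
theorem val_J6 (e : Tm ℕ × Tm ℕ) (he : Sat S e) (l r l' r' : Bool) (ρ : Yv → S) :
    (J6 m w e l r l' r').1.eval ρ = (J6 m w e l r l' r').2.eval ρ := by
  simp only [J6, eval, eval_cx, eval_subst]
  rw [he]

end Valid

/-- Renaming to `ℕ`. -/
def rn (e : Tm Yv × Tm Yv) : Tm ℕ × Tm ℕ :=
  (e.1.subst (fun y => var (Encodable.encode y)), e.2.subst (fun y => var (Encodable.encode y)))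

theorem sat_rn {A : Type u} [Add A] [Mul A] (e : Tm Yv × Tm Yv)
    (h : ∀ ρ : Yv → A, e.1.eval ρ = e.2.eval ρ) : Sat A (rn e) := by
  intro ρ
  simp only [rn]
  rw [eval_subst, eval_subst]
  exact h _

theorem of_sat_rn {A : Type u} [Add A] [Mul A] (e : Tm Yv × Tm Yv) (h : Sat A (rn e))
    (ρ : Yv → A) : e.1.eval ρ = e.2.eval ρ := by
  have h1 := h (Function.extend (Encodable.encode : Yv → ℕ) ρ (fun _ => ρ (Sum.inl 0)))
  simp only [rn] at h1
  rw [eval_subst, eval_subst] at h1
  have h2 : (fun x : Yv => (var (Encodable.encode x) : Tm ℕ).eval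
      (Function.extend (Encodable.encode : Yv → ℕ) ρ (fun _ => ρ (Sum.inl 0)))) = ρ := by
    funext x
    exact Encodable.encode_injective.extend_apply _ _ _
  rw [h2] at h1
  exact h1

theorem rg_rn {e : Tm Yv × Tm Yv} (h : Rg e) : Rg (rn e) := by
  intro y
  simp only [rn]
  rw [occ_subst, occ_subst]
  constructor
  · rintro ⟨x, h1, h2⟩; exact ⟨x, (h x).1 h1, h2⟩
  · rintro ⟨x, h1, h2⟩; exact ⟨x, (h x).2 h1, h2⟩

/-- The semiring axioms as identities. -/
def ax : Fin 5 → Tm ℕ × Tm ℕ := ![
  ((var 0).add (var 1), (var 1).add (var 0)),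
  (((var 0).add (var 1)).add (var 2), (var 0).add ((var 1).add (var 2))),
  (((var 0).mul (var 1)).mul (var 2), (var 0).mul ((var 1).mul (var 2))),
  ((var 0).mul ((var 1).add (var 2)), ((var 0).mul (var 1)).add ((var 0).mul (var 2))),
  (((var 0).add (var 1)).mul (var 2), ((var 0).mul (var 2)).add ((var 1).mul (var 2)))]

theorem rg_ax (k : Fin 5) : Rg (ax k) := by
  intro y
  fin_cases k <;> simp [ax, occ] <;> tauto

theorem sat_ax {S : Type u} [Add S] [Mul S] (hS : IsSR S) (k : Fin 5) : Sat S (ax k) := by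
  intro ρ
  fin_cases k
  · exact hS.add_comm _ _
  · exact hS.add_assoc _ _ _
  · exact hS.mul_assoc _ _ _
  · exact hS.left_distrib _ _ _
  · exact hS.right_distrib _ _ _

theorem isSR_of_ax {A : Type u} [Add A] [Mul A] (h : ∀ k, Sat A (ax k)) : IsSR A where
  add_comm a b := h 0 (fun n => if n = 0 then a else b)
  add_assoc a b c := h 1 (fun n => if n = 0 then a else if n = 1 then b else c)
  mul_assoc a b c := h 2 (fun n => if n = 0 then a else if n = 1 then b else c)
  left_distrib a b c := h 3 (fun n => if n = 0 then a else if n = 1 then b else c)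
  right_distrib a b c := h 4 (fun n => if n = 0 then a else if n = 1 then b else c)

end Pool.Agent.V113.SRI
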