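import Pool.Agent.V113.SRI.Fam

/-! The main theorem: `S` finitely based implies `S^∞` finitely based. -/

set_option autoImplicit false

namespace Pool.Agent.V113.SRI

universe u

open Tm

/-- Derivability from a set of identities. -/
inductive Der (E : Set (Tm ℕ × Tm ℕ)) : Tm ℕ → Tm ℕ → Prop
  | refl (s : Tm ℕ) : Der E s s
  | symm {s t : Tm ℕ} : Der E s t → Der E t s
  | trans {s t r : Tm ℕ} : Der E s t → Der E t r → Der E s r
  | add {s t s' t' : Tm ℕ} : Der E s t → Der E s' t' → Der E (s.add s') (t.add t')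
  | mul {s t s' t' : Tm ℕ} : Der E s t → Der E s' t' → Der E (s.mul s') (t.mul t')
  | inst (e : Tm ℕ × Tm ℕ) (he : e ∈ E) (φ : ℕ → Tm ℕ) : Der E (e.1.subst φ) (e.2.subst φ)

/-- The congruence. -/
def derSetoid (E : Set (Tm ℕ × Tm ℕ)) : Setoid (Tm ℕ) where
  r := Der E
  iseqv := ⟨Der.refl, Der.symm, Der.trans⟩

/-- The quotient algebra. -/
def QA (E : Set (Tm ℕ × Tm ℕ)) : Type := Quotient (derSetoid E)

instance (E : Set (Tm ℕ × Tm ℕ)) : Add (QA E) where
  add := Quotient.map₂ Tm.add (fun _ _ h _ _ h' => Der.add h h')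

instance (E : Set (Tm ℕ × Tm ℕ)) : Mul (QA E) where
  mul := Quotient.map₂ Tm.mul (fun _ _ h _ _ h' => Der.mul h h')

/-- class of a term -/
def qm (E : Set (Tm ℕ × Tm ℕ)) (t : Tm ℕ) : QA E := Quotient.mk (derSetoid E) t

theorem eval_up (E : Set (Tm ℕ × Tm ℕ)) (φ : ℕ → Tm ℕ) (t : Tm ℕ) :
    t.eval (fun n => (ULift.up.{u} (qm E (φ n)))) = ULift.up (qm E (t.subst φ)) := by
  induction t with
  | var x => rfl
  | add s t hs ht => simp only [eval, hs, ht]; rfl
  | mul s t hs ht => simp only [eval, hs, ht]; rfl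

theorem sat_QA (E : Set (Tm ℕ × Tm ℕ)) (e : Tm ℕ × Tm ℕ) (he : e ∈ E) :
    Sat (ULift.{u} (QA E)) e := by
  intro ρ
  choose φ hφ using fun n => Quotient.exists_rep (ρ n).down
  have h1 : ρ = fun n => ULift.up.{u} (qm E (φ n)) := by
    funext n
    apply ULift.down_injective
    exact (hφ n).symm
  rw [h1, eval_up, eval_up]
  congr 1
  exact Quotient.sound (s := derSetoid E) (Der.inst e he φ)

theorem complete {S : Type u} [Add S] [Mul S] (E : Set (Tm ℕ × Tm ℕ))
    (hE : ∀ (A : Type u) [Add A] [Mul A], (∀ e ∈ E, Sat A e) → InVar S A)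
    (s t : Tm ℕ) (h : Sat S (s, t)) : Der E s t := by
  have h1 := hE (ULift.{u} (QA E)) (fun e he => sat_QA E e he) (s, t) h
  have h2 := h1 (fun n => ULift.up (qm E (var n)))
  simp only at h2
  rw [eval_up, eval_up] at h2
  have h3 : ∀ t : Tm ℕ, t.subst var = t := by
    intro t
    induction t with
    | var x => rfl
    | add s t hs ht => simp only [subst, hs, ht]
    | mul s t hs ht => simp only [subst, hs, ht]
  rw [h3, h3] at h2
  exact Quotient.exact (s := derSetoid E) (ULift.up_injective h2)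

section main

variable {S : Type u} [Add S] [Mul S] (E : Set (Tm ℕ × Tm ℕ))

/-- The data of garbage terms. -/
structure GD (S : Type u) [Add S] [Mul S] (E : Set (Tm ℕ × Tm ℕ)) where
  m : Tm ℕ × Tm ℕ → Tm (Option ℕ)
  hm : ∀ e ∈ E, ¬ Rg e → (m e).occ none
  hw : ∀ e ∈ E, ¬ Rg e → ∀ w, (w = e.1 ∨ w = e.2) →
      ∀ (x : ℕ → S) (p : S), w.eval x + mu (m e) w x p = w.eval x

variable {E}

/-- The identities attached to `m` and `w`. -/
noncomputable def famw (E : Set (Tm ℕ × Tm ℕ)) (m : Tm (Option ℕ)) (w : Tm ℕ) :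
    Set (Tm Yv × Tm Yv) :=
  ((Set.range fun b : Bool × Bool × Bool => J1 m w b.1 b.2.1 b.2.2) ∪ {J3 m w} ∪
    (Set.range fun b : Bool × Bool => J4 m w b.1 b.2) ∪ (Set.range fun b : Bool => J5 m w b)) ∪
    ⋃ e ∈ E, Set.range fun b : (Bool × Bool) × Bool × Bool =>
      J6 m w e b.1.1 b.1.2 b.2.1 b.2.2

/-- The new basis. -/
noncomputable def newE (D : GD S E) : Set (Tm ℕ × Tm ℕ) :=
  (Set.range ax ∪ {e ∈ E | Rg e}) ∪
    ⋃ e ∈ {e ∈ E | ¬ Rg e}, rn '' (famw E (D.m e) e.1 ∪ famw E (D.m e) e.2)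

theorem finite_famw (hE : E.Finite) (m : Tm (Option ℕ)) (w : Tm ℕ) : (famw E m w).Finite := by
  apply Set.Finite.union
  · exact Set.toFinite _
  · exact hE.biUnion fun e _ => Set.toFinite _

theorem finite_newE (D : GD S E) (hE : E.Finite) : (newE D).Finite := by
  apply Set.Finite.union
  · exact (Set.toFinite _).union (hE.subset fun e he => he.1)
  · exact (hE.subset fun e he => he.1).biUnion fun e _ =>
      ((finite_famw hE _ _).union (finite_famw hE _ _)).image _

theorem newE_ok (hS : IsSR S) (D : GD S E) (hE : ∀ e ∈ E, Sat S e) (e : Tm ℕ × Tm ℕ)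
    (he : e ∈ newE D) : Rg e ∧ Sat S e := by
  rcases he with (⟨k, rfl⟩ | he) | he
  · exact ⟨rg_ax k, sat_ax hS k⟩
  · exact ⟨he.2, hE e he.1⟩
  · rw [Set.mem_iUnion₂] at he
    obtain ⟨e0, ⟨he0, hirr⟩, f, hf, rfl⟩ := he
    obtain ⟨w, hw, hf⟩ : ∃ w, (w = e0.1 ∨ w = e0.2) ∧ f ∈ famw E (D.m e0) w := by
      rcases hf with hf | hf
      · exact ⟨_, Or.inl rfl, hf⟩
      · exact ⟨_, Or.inr rfl, hf⟩
    have hm := D.hm e0 he0 hirr
    have hww := D.hw e0 he0 hirr w hw
    suffices h : Rg f ∧ ∀ ρ : Yv → S, f.1.eval ρ = f.2.eval ρ from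
      ⟨rg_rn h.1, sat_rn f h.2⟩
    rcases hf with (((⟨b, rfl⟩ | rfl) | ⟨b, rfl⟩) | ⟨b, rfl⟩) | hf
    · exact ⟨rg_J1 w _ _ _, val_J1 _ _ hww hS _ _ _⟩
    · exact ⟨rg_J3 w, val_J3 _ _ hww hS⟩
    · exact ⟨rg_J4 hm w _ _, val_J4 _ _ hww _ _⟩
    · exact ⟨rg_J5 hm w _, val_J5 _ _ hww _⟩
    · rw [Set.mem_iUnion₂] at hf
      obtain ⟨e', he', b, rfl⟩ := hf
      exact ⟨rg_J6 hm w _ _ _ _ _, val_J6 _ _ _ (hE e' he') _ _ _ _⟩

/-- sum or product -/
def op {A : Type u} [Add A] [Mul A] (c : Bool) (a b : A) : A := if c then a + b else a * b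

section sem

variable {A : Type u} [Add A] [Mul A] (D : GD S E) (hA : ∀ e ∈ newE D, Sat A e)

include hA

theorem srA : IsSR A := isSR_of_ax fun k => hA _ (Or.inl (Or.inl ⟨k, rfl⟩))

theorem regA (e : Tm ℕ × Tm ℕ) (he : e ∈ E) (hr : Rg e) : Sat A e :=
  hA _ (Or.inl (Or.inr ⟨he, hr⟩))

theorem famA {e : Tm ℕ × Tm ℕ} (he : e ∈ E) (hr : ¬ Rg e) {w : Tm ℕ} (hw : w = e.1 ∨ w = e.2)
    (f : Tm Yv × Tm Yv) (hf : f ∈ famw E (D.m e) w) (ρ : Yv → A) :
    f.1.eval ρ = f.2.eval ρ := by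
  apply of_sat_rn
  apply hA
  right
  rw [Set.mem_iUnion₂]
  refine ⟨e, ⟨he, hr⟩, f, ?_, rfl⟩
  rcases hw with rfl | rfl
  · exact Or.inl hf
  · exact Or.inr hf

variable {e : Tm ℕ × Tm ℕ} (he : e ∈ E) (hr : ¬ Rg e) {w : Tm ℕ} (hw : w = e.1 ∨ w = e.2)

include he hr hw

theorem F1 (l r o : Bool) (x : ℕ → A) (a b R : A) :
    ade o R (cxe l r a b (w.eval x)) =
      ade o R (cxe l r a b (w.eval x)) +
        cxe l r a b (mu (D.m e) w x (ade o R (cxe l r a b (w.eval x)))) := by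
  have h := famA D hA he hr hw (J1 (D.m e) w l r o)
    (Or.inl (Or.inl (Or.inl (Or.inl ⟨(l, r, o), rfl⟩))))
    (Sum.elim x (Sum.elim x ![a, b, R, a, a, a, a, a, a]))
  simp only [J1, eval, eval_ad, eval_cx, eval_Mw, eval_subst] at h
  exact h

theorem F3 (x : ℕ → A) (q : A) :
    q * w.eval x * q = q * w.eval x * q + q * mu (D.m e) w x q * q := by
  have h := famA D hA he hr hw (J3 (D.m e) w)
    (Or.inl (Or.inl (Or.inl (Or.inr rfl))))
    (Sum.elim x (Sum.elim x ![q, q, q, q, q, q, q, q, q]))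
  simp only [J3, eval, eval_Mw, eval_subst] at h
  exact h

theorem F4 (c d : Bool) (x : ℕ → A) (p1 p2 : A) :
    w.eval x + mu (D.m e) w x (op c p1 p2) =
      w.eval x + mu (D.m e) w x (op c p1 p2) + mu (D.m e) w x (if d then p1 else p2) := by
  have h := famA D hA he hr hw (J4 (D.m e) w c d)
    (Or.inl (Or.inl (Or.inr ⟨(c, d), rfl⟩)))
    (Sum.elim x (Sum.elim x ![p1, p1, p1, p1, p1, p1, p2, p1, p1]))
  simp only [J4, eval, eval_Mw, eval_subst] at h
  cases c <;> cases d <;> exact h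

theorem F5 (c : Bool) (x : ℕ → A) (p1 p2 : A) :
    w.eval x + mu (D.m e) w x p1 + mu (D.m e) w x p2 =
      w.eval x + mu (D.m e) w x p1 + mu (D.m e) w x p2 + mu (D.m e) w x (op c p1 p2) := by
  have h := famA D hA he hr hw (J5 (D.m e) w c)
    (Or.inl (Or.inr ⟨c, rfl⟩))
    (Sum.elim x (Sum.elim x ![p1, p1, p1, p1, p1, p1, p2, p1, p1]))
  simp only [J5, eval, eval_Mw, eval_subst] at h
  cases c <;> exact h

theorem F6 (e' : Tm ℕ × Tm ℕ) (he' : e' ∈ E) (l r l' r' : Bool) (x x' : ℕ → A)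
    (a b a' b' q P : A)
    (hP : ∀ n, P + q * mu (D.m e) w x (x' n) * q = P) :
    cxe l' r' a' b' (e'.1.eval x') + cxe l r a b (mu (D.m e) w x P) =
      cxe l' r' a' b' (e'.2.eval x') + cxe l r a b (mu (D.m e) w x P) := by
  have h := famA D hA he hr hw (J6 (D.m e) w e' l r l' r')
    (Or.inr (by
      rw [Set.mem_iUnion₂]
      exact ⟨e', he', ((l, r), (l', r')), rfl⟩))
    (Sum.elim x (Sum.elim x' ![a, b, q, q, P, q, q, a', b']))
  simp only [J6, eval, eval_cx, eval_Mw, eval_subst] at h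
  have hbig : (bigP (D.m e) w e').eval
      (Sum.elim x (Sum.elim x' ![a, b, q, q, P, q, q, a', b'])) = P := by
    rw [bigP, eval_foldl]
    apply foldl_absorb
    intro t ht
    simp only [List.map_map, List.mem_map, Function.comp_apply] at ht
    obtain ⟨n, _, rfl⟩ := ht
    simp only [eval, eval_Mw]
    exact hP n
  rw [hbig] at h
  exact h

end sem

section claimA

variable (A : Type u) [Add A] [Mul A]

/-- Equal in `A` and with the same variables. -/
def RegA (s t : Tm ℕ) : Prop := (∀ n, s.occ n ↔ t.occ n) ∧ ∀ ρ : ℕ → A, s.eval ρ = t.eval ρ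

/-- Irregular type. -/
def Irr (E : Set (Tm ℕ × Tm ℕ)) (s : Tm ℕ) : Prop :=
  ∃ e ∈ E, ¬ Rg e ∧ ∃ w : Tm ℕ, (w = e.1 ∨ w = e.2) ∧
    ∃ (l r o : Bool) (a b R : Tm ℕ) (φ : ℕ → Tm ℕ),
      RegA A s (ad o R (cx l r a b (w.subst φ)))

variable {A}

theorem RegA.refl (s : Tm ℕ) : RegA A s s := ⟨fun _ => Iff.rfl, fun _ => rfl⟩

theorem RegA.symm {s t : Tm ℕ} (h : RegA A s t) : RegA A t s :=
  ⟨fun n => (h.1 n).symm, fun ρ => (h.2 ρ).symm⟩

theorem RegA.trans {s t r : Tm ℕ} (h : RegA A s t) (h' : RegA A t r) : RegA A s r :=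
  ⟨fun n => (h.1 n).trans (h'.1 n), fun ρ => (h.2 ρ).trans (h'.2 ρ)⟩

theorem RegA.add {s t s' t' : Tm ℕ} (h : RegA A s t) (h' : RegA A s' t') :
    RegA A (s.add s') (t.add t') :=
  ⟨fun n => or_congr (h.1 n) (h'.1 n), fun ρ => by simp only [eval]; rw [h.2, h'.2]⟩

theorem RegA.mul {s t s' t' : Tm ℕ} (h : RegA A s t) (h' : RegA A s' t') :
    RegA A (s.mul s') (t.mul t') :=
  ⟨fun n => or_congr (h.1 n) (h'.1 n), fun ρ => by simp only [eval]; rw [h.2, h'.2]⟩

theorem Irr.of_reg {s t : Tm ℕ} (h : RegA A s t) (h' : Irr A E t) : Irr A E s := by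
  obtain ⟨e, he, hr, w, hw, l, r, o, a, b, R, φ, h2⟩ := h'
  exact ⟨e, he, hr, w, hw, l, r, o, a, b, R, φ, h.trans h2⟩

theorem irr_add_left (hA : IsSR A) {s : Tm ℕ} (h : Irr A E s) (t : Tm ℕ) :
    Irr A E (s.add t) := by
  obtain ⟨e, he, hr, w, hw, l, r, o, a, b, R, φ, h2⟩ := h
  have h3 := h2.add (RegA.refl (A := A) t)
  cases o
  · exact ⟨e, he, hr, w, hw, l, r, true, a, b, t, φ, h3⟩
  · refine ⟨e, he, hr, w, hw, l, r, true, a, b, R.add t, φ, h3.trans ⟨fun n => ?_, fun ρ => ?_⟩⟩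
    · simp only [ad, occ]; tauto
    · simp only [ad, eval]; exact hA.add_assoc _ _ _

theorem irr_add_right (hA : IsSR A) {s : Tm ℕ} (h : Irr A E s) (t : Tm ℕ) :
    Irr A E (t.add s) := by
  refine Irr.of_reg ?_ (irr_add_left hA h t)
  exact ⟨fun n => by simp only [occ]; tauto, fun ρ => hA.add_comm _ _⟩

theorem irr_mul_left (hA : IsSR A) {s : Tm ℕ} (h : Irr A E s) (t : Tm ℕ) :
    Irr A E (t.mul s) := by
  obtain ⟨e, he, hr, w, hw, l, r, o, a, b, R, φ, h2⟩ := h
  have h3 := (RegA.refl (A := A) t).mul h2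
  obtain ⟨a', h4⟩ : ∃ a' : Tm ℕ, RegA A (t.mul (cx l r a b (w.subst φ)))
      (cx true r a' b (w.subst φ)) := by
    cases l <;> cases r
    · exact ⟨t, RegA.refl _⟩
    · refine ⟨t, fun n => ?_, fun ρ => ?_⟩
      · simp only [cx, occ]; tauto
      · simp only [cx, eval]; exact (hA.mul_assoc _ _ _).symm
    · refine ⟨t.mul a, fun n => ?_, fun ρ => ?_⟩
      · simp only [cx, occ]; tauto
      · simp only [cx, eval]; exact (hA.mul_assoc _ _ _).symm
    · refine ⟨t.mul a, fun n => ?_, fun ρ => ?_⟩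
      · simp only [cx, occ]; tauto
      · simp only [cx, eval]
        simp only [hA.mul_assoc]
  cases o
  · exact ⟨e, he, hr, w, hw, true, r, false, a', b, R, φ, h3.trans h4⟩
  · refine ⟨e, he, hr, w, hw, true, r, true, a', b, t.mul R, φ, h3.trans ?_⟩
    have h5 := h4.add (RegA.refl (A := A) (t.mul R))
    refine RegA.trans ⟨fun n => ?_, fun ρ => ?_⟩ h5
    · simp only [ad, occ]; tauto
    · simp only [ad, eval]; exact hA.left_distrib _ _ _

theorem irr_mul_right (hA : IsSR A) {s : Tm ℕ} (h : Irr A E s) (t : Tm ℕ) :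
    Irr A E (s.mul t) := by
  obtain ⟨e, he, hr, w, hw, l, r, o, a, b, R, φ, h2⟩ := h
  have h3 := h2.mul (RegA.refl (A := A) t)
  obtain ⟨b', h4⟩ : ∃ b' : Tm ℕ, RegA A ((cx l r a b (w.subst φ)).mul t)
      (cx l true a b' (w.subst φ)) := by
    cases l <;> cases r
    · exact ⟨t, RegA.refl _⟩
    · refine ⟨b.mul t, fun n => ?_, fun ρ => ?_⟩
      · simp only [cx, occ]; tauto
      · simp only [cx, eval]; exact hA.mul_assoc _ _ _
    · exact ⟨t, RegA.refl _⟩
    · refine ⟨b.mul t, fun n => ?_, fun ρ => ?_⟩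
      · simp only [cx, occ]; tauto
      · simp only [cx, eval]
        simp only [hA.mul_assoc]
  cases o
  · exact ⟨e, he, hr, w, hw, l, true, false, a, b', R, φ, h3.trans h4⟩
  · refine ⟨e, he, hr, w, hw, l, true, true, a, b', R.mul t, φ, h3.trans ?_⟩
    have h5 := h4.add (RegA.refl (A := A) (R.mul t))
    refine RegA.trans ⟨fun n => ?_, fun ρ => ?_⟩ h5
    · simp only [ad, occ]; tauto
    · simp only [ad, eval]; exact hA.right_distrib _ _ _

theorem claimA (D : GD S E) (hA : ∀ e ∈ newE D, Sat A e) {s t : Tm ℕ} (h : Der E s t) :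
    RegA A s t ∨ (Irr A E s ∧ Irr A E t) := by
  have sr := srA D hA
  induction h with
  | refl s => exact Or.inl (RegA.refl s)
  | symm _ ih =>
    rcases ih with h | h
    · exact Or.inl h.symm
    · exact Or.inr h.symm
  | trans _ _ ih1 ih2 =>
    rcases ih1 with h1 | h1 <;> rcases ih2 with h2 | h2
    · exact Or.inl (h1.trans h2)
    · exact Or.inr ⟨Irr.of_reg h1 h2.1, h2.2⟩
    · exact Or.inr ⟨h1.1, Irr.of_reg h2.symm h1.2⟩
    · exact Or.inr ⟨h1.1, h2.2⟩
  | add _ _ ih1 ih2 =>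
    rcases ih1 with h1 | h1
    · rcases ih2 with h2 | h2
      · exact Or.inl (h1.add h2)
      · exact Or.inr ⟨irr_add_right sr h2.1 _, irr_add_right sr h2.2 _⟩
    · exact Or.inr ⟨irr_add_left sr h1.1 _, irr_add_left sr h1.2 _⟩
  | mul _ _ ih1 ih2 =>
    rcases ih1 with h1 | h1
    · rcases ih2 with h2 | h2
      · exact Or.inl (h1.mul h2)
      · exact Or.inr ⟨irr_mul_left sr h2.1 _, irr_mul_left sr h2.2 _⟩
    · exact Or.inr ⟨irr_mul_right sr h1.1 _, irr_mul_right sr h1.2 _⟩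
  | inst e he φ =>
    by_cases hr : Rg e
    · left
      refine ⟨fun n => ?_, fun ρ => ?_⟩
      · rw [occ_subst, occ_subst]
        exact ⟨fun ⟨x, h1, h2⟩ => ⟨x, (hr x).1 h1, h2⟩, fun ⟨x, h1, h2⟩ => ⟨x, (hr x).2 h1, h2⟩⟩
      · rw [eval_subst, eval_subst]
        exact regA D hA e he hr _
    · right
      exact ⟨⟨e, he, hr, _, Or.inl rfl, false, false, false, var 0, var 0, var 0, φ,
        RegA.refl _⟩, ⟨e, he, hr, _, Or.inr rfl, false, false, false, var 0, var 0, var 0, φ,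
        RegA.refl _⟩⟩

end claimA

section fin

variable {A : Type u} [Add A] [Mul A]

theorem gen (K : Set A) (s : Tm ℕ) (ρ : ℕ → A) (hs : s.eval ρ ∈ K)
    (hdown : ∀ (c d : Bool) (p1 p2 : A), op c p1 p2 ∈ K → (if d then p1 else p2) ∈ K)
    (hup : ∀ (c : Bool) (p1 p2 : A), p1 ∈ K → p2 ∈ K → op c p1 p2 ∈ K) (r : Tm ℕ)
    (hr : ∀ n, r.occ n → s.occ n) : r.eval ρ ∈ K := by
  have h1 : ∀ t : Tm ℕ, t.eval ρ ∈ K → ∀ n, t.occ n → ρ n ∈ K := by
    intro t
    induction t with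
    | var x => rintro h n (rfl : n = x); exact h
    | add a b ha hb =>
      rintro h n (hn | hn)
      · exact ha (hdown true true _ _ h) n hn
      · exact hb (hdown true false _ _ h) n hn
    | mul a b ha hb =>
      rintro h n (hn | hn)
      · exact ha (hdown false true _ _ h) n hn
      · exact hb (hdown false false _ _ h) n hn
  exact eval_mem K (fun a ha b hb => hup true a b ha hb) (fun a ha b hb => hup false a b ha hb)
    (fun n hn => h1 s hs n (hr n hn))

/-- Garbage elements. -/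
def GoodG (E : Set (Tm ℕ × Tm ℕ)) (B : Set A) (G : A) : Prop :=
  ∀ e ∈ E, ∀ x : ℕ → A, (∀ n, x n ∈ B) → ∀ (l r : Bool) (a b : A),
    cxe l r a b (e.1.eval x) + G = cxe l r a b (e.2.eval x) + G

theorem claimB (hA : IsSR A) {B : Set A}
    (hadd : ∀ a ∈ B, ∀ b ∈ B, a + b ∈ B) (hmul : ∀ a ∈ B, ∀ b ∈ B, a * b ∈ B) {G : A}
    (hG : GoodG E B G) {s t : Tm ℕ} (h : Der E s t) : ∀ x : ℕ → A, (∀ n, x n ∈ B) →
      ∀ (l r : Bool) (a b : A), cxe l r a b (s.eval x) + G = cxe l r a b (t.eval x) + G := by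
  induction h with
  | refl s => intros; rfl
  | symm _ ih => intro x hx l r a b; exact (ih x hx l r a b).symm
  | trans _ _ ih1 ih2 => intro x hx l r a b; exact (ih1 x hx l r a b).trans (ih2 x hx l r a b)
  | @add s t s' t' _ _ ih1 ih2 =>
    intro x hx l r a b
    simp only [eval]
    rw [cxe_add hA, cxe_add hA, hA.add_assoc, ih2 x hx, ← hA.add_assoc,
      hA.add_comm (cxe l r a b (s.eval x)), hA.add_assoc, ih1 x hx, ← hA.add_assoc,
      hA.add_comm (cxe l r a b (t'.eval x))]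
  | @mul s t s' t' _ _ ih1 ih2 =>
    intro x hx l r a b
    simp only [eval]
    have e1 : cxe l r a b (s.eval x * s'.eval x) + G = cxe l r a b (t.eval x * s'.eval x) + G := by
      have h1 : ∀ y z : A, cxe l r a b (y * z) =
          cxe l true a (if r then z * b else z) y := by
        intro y z
        cases l <;> cases r <;> simp [cxe, hA.mul_assoc]
      rw [h1, h1]
      exact ih1 x hx _ _ _ _
    have e2 : cxe l r a b (t.eval x * s'.eval x) + G = cxe l r a b (t.eval x * t'.eval x) + G := by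
      have h1 : ∀ y z : A, cxe l r a b (y * z) =
          cxe true r (if l then a * y else y) b z := by
        intro y z
        cases l <;> cases r <;> simp [cxe, hA.mul_assoc]
      rw [h1, h1]
      exact ih2 x hx _ _ _ _
    exact e1.trans e2
  | inst e he φ =>
    intro x hx l r a b
    rw [eval_subst, eval_subst]
    exact hG e he _ (fun n => eval_mem B hadd hmul fun k _ => hx k) _ _ _ _

theorem exists_G (D : GD S E) (hA : ∀ e ∈ newE D, Sat A e) {s : Tm ℕ} (h : Irr A E s)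
    (ρ : ℕ → A) (B : Set A)
    (hB : ∀ b ∈ B, ∃ r : Tm ℕ, (∀ n, r.occ n → s.occ n) ∧ r.eval ρ = b)
    (hB' : ∀ r : Tm ℕ, r.eval ρ ∈ B) :
    ∃ G : A, s.eval ρ + G = s.eval ρ ∧ GoodG E B G := by
  have sr := srA D hA
  obtain ⟨e, he, hr, w, hw, l, r, o, a, b, R, φ, h2⟩ := h
  set x : ℕ → A := fun n => (φ n).eval ρ with hx
  have hev : s.eval ρ = ade o (R.eval ρ) (cxe l r (a.eval ρ) (b.eval ρ) (w.eval x)) := by
    rw [h2.2 ρ, eval_ad, eval_cx, eval_subst]
  set ev := s.eval ρ with hevdef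
  set W := w.eval x with hW
  set f := cxe l r (a.eval ρ) (b.eval ρ) with hf
  -- absorption by `ev`
  have habs : ∀ p ∈ B, ev + f (mu (D.m e) w x p) = ev := by
    intro p hp
    obtain ⟨q, hq, rfl⟩ := hB p hp
    refine gen {p : A | ev + f (mu (D.m e) w x p) = ev} s ρ ?_ ?_ ?_ q hq
    · have := F1 D hA he hr hw l r o x (a.eval ρ) (b.eval ρ) (R.eval ρ)
      rw [← hW, ← hf, ← hev] at this
      exact this.symm
    · intro c d p1 p2 hp
      have h3 := F4 D hA he hr hw c d x p1 p2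
      have h4 : ev + f (mu (D.m e) w x (op c p1 p2)) =
          ev + f (mu (D.m e) w x (op c p1 p2)) +
            f (mu (D.m e) w x (if d then p1 else p2)) := by
        rw [hev, hf, ← ade_add sr, ← cxe_add sr, ← ade_add sr, ← cxe_add sr]
        congr 2
      change ev + f (mu (D.m e) w x (op c p1 p2)) = ev at hp
      rw [hp] at h4
      exact h4.symm
    · intro c p1 p2 hp1 hp2
      have h3 := F5 D hA he hr hw c x p1 p2
      have h4 : ev + f (mu (D.m e) w x p1) + f (mu (D.m e) w x p2) =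
          ev + f (mu (D.m e) w x p1) + f (mu (D.m e) w x p2) +
            f (mu (D.m e) w x (op c p1 p2)) := by
        rw [hev, hf, ← ade_add sr, ← cxe_add sr, ← ade_add sr, ← cxe_add sr, ← ade_add sr,
          ← cxe_add sr]
        congr 2
      change ev + f (mu (D.m e) w x p1) = ev at hp1
      change ev + f (mu (D.m e) w x p2) = ev at hp2
      rw [hp1, hp2] at h4
      exact h4.symm
  -- absorption by `P`
  set P := ev * W * ev with hP
  have habs2 : ∀ p ∈ B, P + ev * mu (D.m e) w x p * ev = P := by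
    intro p hp
    obtain ⟨q, hq, rfl⟩ := hB p hp
    refine gen {p : A | P + ev * mu (D.m e) w x p * ev = P} s ρ ?_ ?_ ?_ q hq
    · exact (F3 D hA he hr hw x ev).symm
    · intro c d p1 p2 hp
      have h3 := F4 D hA he hr hw c d x p1 p2
      have h4 : P + ev * mu (D.m e) w x (op c p1 p2) * ev =
          P + ev * mu (D.m e) w x (op c p1 p2) * ev +
            ev * mu (D.m e) w x (if d then p1 else p2) * ev := by
        rw [hP, ← sr.right_distrib, ← sr.left_distrib, ← sr.right_distrib, ← sr.left_distrib]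
        congr 2
      change P + ev * mu (D.m e) w x (op c p1 p2) * ev = P at hp
      rw [hp] at h4
      exact h4.symm
    · intro c p1 p2 hp1 hp2
      have h3 := F5 D hA he hr hw c x p1 p2
      have h4 : P + ev * mu (D.m e) w x p1 * ev + ev * mu (D.m e) w x p2 * ev =
          P + ev * mu (D.m e) w x p1 * ev + ev * mu (D.m e) w x p2 * ev +
            ev * mu (D.m e) w x (op c p1 p2) * ev := by
        rw [hP, ← sr.right_distrib, ← sr.left_distrib, ← sr.right_distrib, ← sr.left_distrib,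
          ← sr.right_distrib, ← sr.left_distrib]
        congr 2
      change P + ev * mu (D.m e) w x p1 * ev = P at hp1
      change P + ev * mu (D.m e) w x p2 * ev = P at hp2
      rw [hp1, hp2] at h4
      exact h4.symm
  have hPB : P ∈ B := by
    have : P = ((s.mul (w.subst φ)).mul s).eval ρ := by
      simp only [eval, eval_subst]
      rfl
    rw [this]
    exact hB' _
  refine ⟨f (mu (D.m e) w x P), habs P hPB, ?_⟩
  intro e' he' x' hx' l' r' a' b'
  exact F6 D hA he hr hw e' he' l r l' r' x x' _ _ a' b' ev P fun n => habs2 _ (hx' n)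

theorem final (D : GD S E) (hA : ∀ e ∈ newE D, Sat A e) {s t : Tm ℕ} (h : Der E s t)
    (hst : ∀ n, s.occ n ↔ t.occ n) (ρ0 : ℕ → A) : s.eval ρ0 = t.eval ρ0 := by
  classical
  have sr := srA D hA
  rcases claimA D hA h with h1 | ⟨h1, h2⟩
  · exact h1.2 ρ0
  obtain ⟨n0, hn0⟩ := exists_occ s
  set ρ : ℕ → A := fun n => if s.occ n then ρ0 n else ρ0 n0 with hρ
  have es : s.eval ρ0 = s.eval ρ := eval_congr fun n hn => by simp [hρ, hn]
  have et : t.eval ρ0 = t.eval ρ := eval_congr fun n hn => by simp [hρ, (hst n).2 hn]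
  rw [es, et]
  set B : Set A := Set.range fun r : Tm ℕ => r.eval ρ with hB
  have hB' : ∀ r : Tm ℕ, r.eval ρ ∈ B := fun r => ⟨r, rfl⟩
  have hadd : ∀ a ∈ B, ∀ b ∈ B, a + b ∈ B := by
    rintro _ ⟨r, rfl⟩ _ ⟨r', rfl⟩; exact ⟨r.add r', rfl⟩
  have hmul : ∀ a ∈ B, ∀ b ∈ B, a * b ∈ B := by
    rintro _ ⟨r, rfl⟩ _ ⟨r', rfl⟩; exact ⟨r.mul r', rfl⟩
  have hBr : ∀ b ∈ B, ∃ r : Tm ℕ, (∀ n, r.occ n → s.occ n) ∧ r.eval ρ = b := by
    rintro _ ⟨r, rfl⟩
    refine ⟨r.subst fun n => if s.occ n then var n else var n0, ?_, ?_⟩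
    · intro n hn
      obtain ⟨k, _, hk⟩ := (occ_subst _ _ _).1 hn
      by_cases h3 : s.occ k
      · simp only [h3, if_true] at hk
        obtain rfl : n = k := hk
        exact h3
      · simp only [h3, if_false] at hk
        obtain rfl : n = n0 := hk
        exact hn0
    · rw [eval_subst]
      apply eval_congr
      intro k _
      by_cases h3 : s.occ k
      · simp [h3, eval]
      · simp [h3, eval, hρ, hn0]
  have hBr' : ∀ b ∈ B, ∃ r : Tm ℕ, (∀ n, r.occ n → t.occ n) ∧ r.eval ρ = b := by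
    intro b hb
    obtain ⟨r, hr, hrb⟩ := hBr b hb
    exact ⟨r, fun n hn => (hst n).1 (hr n hn), hrb⟩
  obtain ⟨G1, hG1, hg1⟩ := exists_G D hA h1 ρ B hBr hB'
  obtain ⟨G2, hG2, hg2⟩ := exists_G D hA h2 ρ B hBr' hB'
  have hρB : ∀ n, ρ n ∈ B := fun n => hB' (var n)
  have c1 : s.eval ρ + G1 = t.eval ρ + G1 :=
    claimB sr hadd hmul hg1 h ρ hρB false false (ρ 0) (ρ 0)
  have c2 : s.eval ρ + G2 = t.eval ρ + G2 :=
    claimB sr hadd hmul hg2 h ρ hρB false false (ρ 0) (ρ 0)
  calc s.eval ρ = s.eval ρ + G1 := hG1.symm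
    _ = t.eval ρ + G1 := c1
    _ = t.eval ρ + G2 + G1 := by rw [hG2]
    _ = s.eval ρ + G2 + G1 := by rw [c2]
    _ = s.eval ρ + G1 + G2 := by rw [sr.add_assoc, sr.add_comm G2, ← sr.add_assoc]
    _ = s.eval ρ + G2 := by rw [hG1]
    _ = t.eval ρ + G2 := c2
    _ = t.eval ρ := hG2

end fin

end main

/-! ### The algebra `S^∞` -/

section ext

variable {S : Type u} [Add S] [Mul S]

omit [Mul S] in
theorem Ext.add_elt (a b : S) : (Ext.elt a + Ext.elt b : Ext S) = Ext.elt (a + b) := rfl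
omit [Add S] in
theorem Ext.mul_elt (a b : S) : (Ext.elt a * Ext.elt b : Ext S) = Ext.elt (a * b) := rfl
omit [Mul S] in
theorem Ext.add_infty (a : Ext S) : (a + Ext.infty : Ext S) = Ext.infty := by cases a <;> rfl
omit [Mul S] in
theorem Ext.infty_add (a : Ext S) : (Ext.infty + a : Ext S) = Ext.infty := by cases a <;> rfl
omit [Add S] in
theorem Ext.mul_infty (a : Ext S) : (a * Ext.infty : Ext S) = Ext.infty := by cases a <;> rfl
omit [Add S] in
theorem Ext.infty_mul (a : Ext S) : (Ext.infty * a : Ext S) = Ext.infty := by cases a <;> rfl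

theorem eval_elt (ρ : ℕ → S) (t : Tm ℕ) :
    t.eval (fun n => Ext.elt (ρ n)) = Ext.elt (t.eval ρ) := by
  induction t with
  | var x => rfl
  | add s t hs ht => simp only [eval, hs, ht, Ext.add_elt]
  | mul s t hs ht => simp only [eval, hs, ht, Ext.mul_elt]

theorem eval_infty (ρ : ℕ → Ext S) (t : Tm ℕ) (n : ℕ) (hn : t.occ n) (h : ρ n = Ext.infty) :
    t.eval ρ = Ext.infty := by
  induction t with
  | var x => obtain rfl : n = x := hn; exact h
  | add s t hs ht =>
    simp only [eval]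
    rcases hn with hn | hn
    · rw [hs hn, Ext.infty_add]
    · rw [ht hn, Ext.add_infty]
  | mul s t hs ht =>
    simp only [eval]
    rcases hn with hn | hn
    · rw [hs hn, Ext.infty_mul]
    · rw [ht hn, Ext.mul_infty]

theorem sat_ext [Nonempty S] (e : Tm ℕ × Tm ℕ) : Sat (Ext S) e ↔ Rg e ∧ Sat S e := by
  classical
  constructor
  · intro h
    have hS : Sat S e := by
      intro ρ
      have h1 := h (fun n => Ext.elt (ρ n))
      rw [eval_elt, eval_elt] at h1
      exact Ext.elt.inj h1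
    refine ⟨fun x => ?_, hS⟩
    have a0 := Classical.arbitrary S
    have key : ∀ s t : Tm ℕ, (∀ ρ : ℕ → Ext S, s.eval ρ = t.eval ρ) → s.occ x → t.occ x := by
      intro s t hst hs
      by_contra ht
      have h1 := hst (fun n => if n = x then Ext.infty else Ext.elt a0)
      rw [eval_infty _ s x hs (by simp)] at h1
      have h2 : t.eval (fun n => if n = x then Ext.infty else Ext.elt a0) =
          Ext.elt (t.eval fun _ => a0) := by
        rw [← eval_elt]
        apply eval_congr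
        intro n hn
        have : n ≠ x := fun h => ht (h ▸ hn)
        simp [this]
      rw [h2] at h1
      cases h1
    exact ⟨key _ _ h, key _ _ fun ρ => (h ρ).symm⟩
  · rintro ⟨hr, hS⟩ ρ
    by_cases hinf : ∃ n, e.1.occ n ∧ ρ n = Ext.infty
    · obtain ⟨n, hn, h⟩ := hinf
      rw [eval_infty ρ _ n hn h, eval_infty ρ _ n ((hr n).1 hn) h]
    · push Not at hinf
      have a0 := Classical.arbitrary S
      let σ : ℕ → S := fun n => match ρ n with
        | Ext.elt a => a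
        | Ext.infty => a0
      have h1 : ∀ t : Tm ℕ, (∀ n, t.occ n → e.1.occ n) → t.eval ρ = Ext.elt (t.eval σ) := by
        intro t ht
        rw [← eval_elt]
        apply eval_congr
        intro n hn
        have h2 := hinf n (ht n hn)
        simp only [σ]
        cases h3 : ρ n with
        | elt a => rfl
        | infty => exact absurd h3 h2
      rw [h1 _ fun n hn => hn, h1 _ fun n hn => (hr n).2 hn, hS σ]

/-- The main theorem. -/
theorem finitelyBased_ext [Nonempty S] (hS : IsSR S) (h : FinitelyBased S) :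
    FinitelyBased (Ext S) := by
  classical
  obtain ⟨E, hfin, hE⟩ := h
  have hES : ∀ e ∈ E, Sat S e := (hE S).1 fun e he => he
  have hm : ∀ e : Tm ℕ × Tm ℕ, ∃ m : Tm (Option ℕ), e ∈ E → ¬ Rg e → m.occ none ∧
      ∀ w, (w = e.1 ∨ w = e.2) → ∀ (x : ℕ → S) (p : S), w.eval x + mu m w x p = w.eval x := by
    intro e
    by_cases h1 : e ∈ E ∧ ¬ Rg e
    · obtain ⟨m, hm⟩ := exists_m hS e (hES e h1.1) h1.2
      exact ⟨m, fun _ _ => hm⟩
    · exact ⟨var none, fun h2 h3 => absurd ⟨h2, h3⟩ h1⟩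
  choose m hm using hm
  let D : GD S E := ⟨m, fun e he hr => (hm e he hr).1, fun e he hr => (hm e he hr).2⟩
  refine ⟨newE D, finite_newE D hfin, fun A _ _ => ⟨fun hA e he => ?_, fun hA e he => ?_⟩⟩
  · apply hA
    rw [sat_ext]
    exact newE_ok hS D hES e he
  · rw [sat_ext] at he
    intro ρ
    exact final D hA (complete E (fun A _ _ h => (hE A).2 h) e.1 e.2 he.2) he.1 ρ

end ext

end Pool.Agent.V113.SRI
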